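import Pool.Agent.R646.Q.Fin

/-!
# A graph product of finite groups which is not quasi-isometric to any right-angled Coxeter group
-/

set_option autoImplicit false

namespace Pool.Agent.Results.MP_97dbbf_al.NotCoxeter

open Pool.Agent.R646.Q

/-- There are a finite simplicial graph `Γ` and finite groups `A v` (`v` a vertex) such that the
graph product `ΓA` is not quasi-isometric to any right-angled Coxeter group, that is, to any graph
product over a finite simplicial graph with all vertex groups of order two. -/
theorem result :
    ∃ (V : Type) (_ : Finite V) (Γ : SimpleGraph V) (A : V → Type) (_ : ∀ v, Group (A v)),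
      (∀ v, Finite (A v)) ∧
      ∀ (V' : Type) (_ : Finite V') (Γ' : SimpleGraph V'),
        ¬ QuasiIsometric (GraphProd Γ A) (GraphProd Γ' (fun _ => Multiplicative (ZMod 2))) :=
  ⟨Ex.Vx, inferInstance, Ex.Γ, fun v => Multiplicative (ZMod (Ex.ord v)), inferInstance,
    inferInstance, fun _ _ Γ' => not_qi Γ'⟩

end Pool.Agent.Results.MP_97dbbf_al.NotCoxeter
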